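import Mathlib

/-!
# MP_85199e_an: an everywhere divergent real trigonometric series with coefficients in every `ℓ^p`, `p > 2`

The series is `∑ n^(-1/2) cos (n log n + n x)`.  For every `x` the derivative `log t + 1 + x` of the
phase is close to `2 π k` at a suitable integer `N ≈ exp (2 π k - 1 - x)`, and at `n = N + j` with
`j = O (√N)` the phase is `θ(N) + j ^ 2 / (2 N) + o(1)` modulo `2 π`.  The terms with `j ≤ √N / 8`
(if `|cos θ(N)|` is not small) or those with `√(π N) ≤ j ≤ √(π N) + √N / 8` (otherwise) all have the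
same sign, and their sum is bounded below in absolute value.
-/

set_option autoImplicit false

namespace Pool.Agent.Results.MP_85199e_an.EverywhereDivergent

open Filter Topology Finset

/-- the phase `θ(t) = t log t + t x` -/
noncomputable def ph (x t : ℝ) : ℝ := t * Real.log t + t * x

/-- second order expansion of `(1 + u) log (1 + u) - u` -/
lemma log_exp {u : ℝ} (h0 : 0 ≤ u) (h1 : u ≤ 1 / 2) :
    |(1 + u) * Real.log (1 + u) - u - u ^ 2 / 2| ≤ 4 * u ^ 3 := by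
  have hx : |(-u)| < 1 := by rw [abs_neg, abs_of_nonneg h0]; linarith
  have h := Real.abs_log_sub_add_sum_range_le hx 2
  rw [abs_neg, abs_of_nonneg h0, Finset.sum_range_succ, Finset.sum_range_one] at h
  norm_num at h
  -- `|-u + u ^ 2 / 2 + log (1 + u)| ≤ u ^ 3 / (1 - u)`
  have h2 : u ^ 3 / (1 - u) ≤ 2 * u ^ 3 := by
    rw [div_le_iff₀ (by linarith)]
    have : 0 ≤ u ^ 3 := by positivity
    nlinarith
  have h3 : |-u + u ^ 2 / 2 + Real.log (1 + u)| ≤ 2 * u ^ 3 := le_trans h h2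
  rw [abs_le] at h3 ⊢
  have hu3 : 0 ≤ u ^ 3 := by positivity
  constructor <;> nlinarith [mul_nonneg h0 hu3]

/-- expansion of the phase -/
lemma ph_exp (x : ℝ) {N j : ℝ} (hN : 0 < N) (hj : 0 ≤ j) (hj2 : j ≤ N / 2) :
    |ph x (N + j) - ph x N - j * (Real.log N + 1 + x) - j ^ 2 / (2 * N)| ≤ 4 * j ^ 3 / N ^ 2 := by
  have hu0 : 0 ≤ j / N := by positivity
  have hu1 : j / N ≤ 1 / 2 := by rw [div_le_iff₀ hN]; linarith
  have h := log_exp hu0 hu1
  have hl : Real.log (N + j) = Real.log N + Real.log (1 + j / N) := by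
    rw [← Real.log_mul hN.ne' (by positivity)]
    congr 1
    field_simp
  have e : ph x (N + j) - ph x N - j * (Real.log N + 1 + x) - j ^ 2 / (2 * N) =
      N * ((1 + j / N) * Real.log (1 + j / N) - j / N - (j / N) ^ 2 / 2) := by
    unfold ph
    rw [hl]
    field_simp
    ring
  rw [e, abs_mul, abs_of_pos hN]
  calc N * |(1 + j / N) * Real.log (1 + j / N) - j / N - (j / N) ^ 2 / 2|
      ≤ N * (4 * (j / N) ^ 3) := by gcongr
    _ = 4 * j ^ 3 / N ^ 2 := by field_simp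

/-- phase near a stationary point -/
lemma near (x : ℝ) (k N j : ℕ) {R : ℝ} (hR : 10000 ≤ R) (hRN : R ^ 2 = N)
    (hk : |Real.log N + 1 + x - 2 * Real.pi * k| ≤ 1 / N) (hj : (j : ℝ) ≤ 2 * R) :
    |ph x ((N : ℝ) + j) - (j * k : ℕ) * (2 * Real.pi) - ph x N - (j : ℝ) ^ 2 / (2 * N)| ≤
      34 / R := by
  have hR0 : 0 < R := by linarith
  have hN : (0 : ℝ) < N := by rw [← hRN]; positivity
  have hj0 : (0 : ℝ) ≤ j := Nat.cast_nonneg j
  have hj2 : (j : ℝ) ≤ (N : ℝ) / 2 := by rw [← hRN]; nlinarith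
  have h := ph_exp x hN hj0 hj2
  have h2 : |(j : ℝ) * (Real.log N + 1 + x - 2 * Real.pi * k)| ≤ 2 * R * (1 / N) := by
    rw [abs_mul, abs_of_nonneg hj0]
    exact mul_le_mul hj hk (abs_nonneg _) (by positivity)
  have h3 : 4 * (j : ℝ) ^ 3 / (N : ℝ) ^ 2 ≤ 32 / R := by
    have : (j : ℝ) ^ 3 ≤ (2 * R) ^ 3 := pow_le_pow_left₀ hj0 hj 3
    rw [← hRN, div_le_div_iff₀ (by positivity) hR0]
    have hR1 : 0 ≤ R := hR0.le
    nlinarith [mul_le_mul_of_nonneg_right this hR1]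
  have h4 : 2 * R * (1 / (N : ℝ)) = 2 / R := by rw [← hRN]; field_simp
  rw [h4] at h2
  have e : ph x ((N : ℝ) + j) - (j * k : ℕ) * (2 * Real.pi) - ph x N - (j : ℝ) ^ 2 / (2 * N) =
      (ph x (N + j) - ph x N - j * (Real.log N + 1 + x) - j ^ 2 / (2 * N)) +
        (j : ℝ) * (Real.log N + 1 + x - 2 * Real.pi * k) := by
    push_cast
    ring
  rw [e]
  calc _ ≤ _ := abs_add_le _ _
    _ ≤ 32 / R + 2 / R := add_le_add (h.trans h3) h2
    _ = 34 / R := by ring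

/-- all the terms of a block have a definite sign -/
lemma block_term (x : ℝ) (k N j : ℕ) {R A : ℝ} (hR : 10000 ≤ R) (hRN : R ^ 2 = N)
    (hk : |Real.log N + 1 + x - 2 * Real.pi * k| ≤ 1 / N) (hA0 : 0 ≤ A) (hA : A ≤ 9 / 5)
    (h1 : A * R ≤ j) (h2 : (j : ℝ) ≤ (A + 1 / 8) * R)
    (hc : 7 / 10 ≤ |Real.cos (ph x N + A ^ 2 / 2)|) :
    3 / 10 ≤ Real.cos (ph x N + A ^ 2 / 2) * Real.cos (ph x ((N : ℝ) + j)) := by
  have hR0 : 0 < R := by linarith
  have hj : (j : ℝ) ≤ 2 * R := by nlinarith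
  have h := near x k N j hR hRN hk hj
  set c := Real.cos (ph x N + A ^ 2 / 2) with hcdef
  have hcos : Real.cos (ph x ((N : ℝ) + j)) =
      Real.cos (ph x ((N : ℝ) + j) - (j * k : ℕ) * (2 * Real.pi)) :=
    (Real.cos_sub_nat_mul_two_pi _ _).symm
  have hlip := Real.abs_cos_sub_cos_le (ph x ((N : ℝ) + j) - (j * k : ℕ) * (2 * Real.pi))
    (ph x N + A ^ 2 / 2)
  rw [← hcos, ← hcdef] at hlip
  have hjj0 : A ^ 2 / 2 ≤ (j : ℝ) ^ 2 / (2 * N) := by
    rw [← hRN, div_le_div_iff₀ (by norm_num) (by positivity)]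
    have : (A * R) ^ 2 ≤ (j : ℝ) ^ 2 := pow_le_pow_left₀ (by positivity) h1 2
    nlinarith
  have hjj1 : (j : ℝ) ^ 2 / (2 * N) ≤ (A + 1 / 8) ^ 2 / 2 := by
    rw [← hRN, div_le_div_iff₀ (by positivity) (by norm_num)]
    have : (j : ℝ) ^ 2 ≤ ((A + 1 / 8) * R) ^ 2 := pow_le_pow_left₀ (Nat.cast_nonneg j) h2 2
    nlinarith
  have h34 : 34 / R ≤ 34 / 10000 := by gcongr
  have hr : |ph x ((N : ℝ) + j) - (j * k : ℕ) * (2 * Real.pi) - (ph x N + A ^ 2 / 2)| ≤ 1 / 4 := by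
    rw [abs_le] at h ⊢
    constructor <;> nlinarith
  have hd : |Real.cos (ph x ((N : ℝ) + j)) - c| ≤ 1 / 4 := hlip.trans hr
  have hc1 : |c| ≤ 1 := Real.abs_cos_le_one _
  have e : c * Real.cos (ph x ((N : ℝ) + j)) =
      |c| ^ 2 + c * (Real.cos (ph x ((N : ℝ) + j)) - c) := by rw [sq_abs]; ring
  have h5 : -(|c| * (1 / 4)) ≤ c * (Real.cos (ph x ((N : ℝ) + j)) - c) := by
    have : |c * (Real.cos (ph x ((N : ℝ) + j)) - c)| ≤ |c| * (1 / 4) := by
      rw [abs_mul]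
      exact mul_le_mul_of_nonneg_left hd (abs_nonneg _)
    exact (abs_le.1 this).1
  rw [e]
  nlinarith

/-- the sum over a block is bounded below -/
lemma block_sum (x : ℝ) (k N : ℕ) {R A : ℝ} (hR : 10000 ≤ R) (hRN : R ^ 2 = N)
    (hk : |Real.log N + 1 + x - 2 * Real.pi * k| ≤ 1 / N) (hA0 : 0 ≤ A) (hA : A ≤ 9 / 5)
    (hc : 7 / 10 ≤ |Real.cos (ph x N + A ^ 2 / 2)|) :
    1 / 50 ≤ |∑ j ∈ Finset.Ico ⌈A * R⌉₊ ⌊(A + 1 / 8) * R⌋₊,
      Real.cos (ph x ((N + j : ℕ) : ℝ)) / √((N + j : ℕ) : ℝ)| := by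
  have hR0 : 0 < R := by linarith
  set c := Real.cos (ph x N + A ^ 2 / 2) with hcdef
  have hc1 : |c| ≤ 1 := Real.abs_cos_le_one _
  have hterm : ∀ j ∈ Finset.Ico ⌈A * R⌉₊ ⌊(A + 1 / 8) * R⌋₊,
      1 / 5 / R ≤ c * (Real.cos (ph x ((N + j : ℕ) : ℝ)) / √((N + j : ℕ) : ℝ)) := by
    intro j hj
    rw [Finset.mem_Ico] at hj
    have h1 : A * R ≤ j := le_trans (Nat.le_ceil _) (by exact_mod_cast hj.1)
    have h2 : (j : ℝ) ≤ (A + 1 / 8) * R :=
      le_trans (by exact_mod_cast hj.2.le) (Nat.floor_le (by positivity))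
    have hb := block_term x k N j hR hRN hk hA0 hA h1 h2 hc
    rw [← hcdef] at hb
    have hs : √((N + j : ℕ) : ℝ) ≤ 3 / 2 * R := by
      rw [Real.sqrt_le_left (by positivity)]
      push_cast
      rw [← hRN]
      nlinarith
    have hs0 : 0 < √((N + j : ℕ) : ℝ) := by
      apply Real.sqrt_pos.2
      push_cast
      rw [← hRN]
      positivity
    rw [← mul_div_assoc, div_div, div_le_div_iff₀ (by positivity) hs0]
    push_cast at hb ⊢
    push_cast at hs hs0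
    nlinarith
  have hcard : R / 8 - 2 ≤ ((Finset.Ico ⌈A * R⌉₊ ⌊(A + 1 / 8) * R⌋₊).card : ℝ) := by
    rw [Nat.card_Ico]
    have h1 : (⌈A * R⌉₊ : ℝ) < A * R + 1 := Nat.ceil_lt_add_one (by positivity)
    have h2 : (A + 1 / 8) * R - 1 < (⌊(A + 1 / 8) * R⌋₊ : ℝ) := Nat.sub_one_lt_floor _
    have h3 : ⌈A * R⌉₊ ≤ ⌊(A + 1 / 8) * R⌋₊ := by
      have : (⌈A * R⌉₊ : ℝ) ≤ (⌊(A + 1 / 8) * R⌋₊ : ℝ) := by nlinarith
      exact_mod_cast this
    rw [Nat.cast_sub h3]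
    nlinarith
  have hsum : (R / 8 - 2) * (1 / 5 / R) ≤ c * ∑ j ∈ Finset.Ico ⌈A * R⌉₊ ⌊(A + 1 / 8) * R⌋₊,
      Real.cos (ph x ((N + j : ℕ) : ℝ)) / √((N + j : ℕ) : ℝ) := by
    rw [Finset.mul_sum]
    calc (R / 8 - 2) * (1 / 5 / R)
        ≤ ((Finset.Ico ⌈A * R⌉₊ ⌊(A + 1 / 8) * R⌋₊).card : ℝ) * (1 / 5 / R) := by gcongr
      _ = ∑ j ∈ Finset.Ico ⌈A * R⌉₊ ⌊(A + 1 / 8) * R⌋₊, 1 / 5 / R := by
          rw [Finset.sum_const, nsmul_eq_mul]
      _ ≤ _ := Finset.sum_le_sum hterm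
  have hlow : 1 / 50 ≤ (R / 8 - 2) * (1 / 5 / R) := by
    rw [← mul_div_assoc, le_div_iff₀ hR0]
    nlinarith
  calc (1 : ℝ) / 50 ≤ c * ∑ j ∈ Finset.Ico ⌈A * R⌉₊ ⌊(A + 1 / 8) * R⌋₊,
      Real.cos (ph x ((N + j : ℕ) : ℝ)) / √((N + j : ℕ) : ℝ) := hlow.trans hsum
    _ ≤ |c * ∑ j ∈ Finset.Ico ⌈A * R⌉₊ ⌊(A + 1 / 8) * R⌋₊,
      Real.cos (ph x ((N + j : ℕ) : ℝ)) / √((N + j : ℕ) : ℝ)| := le_abs_self _
    _ ≤ 1 * |∑ j ∈ Finset.Ico ⌈A * R⌉₊ ⌊(A + 1 / 8) * R⌋₊,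
      Real.cos (ph x ((N + j : ℕ) : ℝ)) / √((N + j : ℕ) : ℝ)| := by
        rw [abs_mul]; gcongr
    _ = _ := one_mul _

/-- the coefficient of `cos (n x)` -/
noncomputable def ca (n : ℕ) : ℝ := Real.cos (n * Real.log n) / √(n : ℝ)

/-- the coefficient of `sin (n x)` -/
noncomputable def cb (n : ℕ) : ℝ := -Real.sin (n * Real.log n) / √(n : ℝ)

lemma term_eq (x : ℝ) (n : ℕ) :
    ca n * Real.cos (n * x) + cb n * Real.sin (n * x) = Real.cos (ph x n) / √(n : ℝ) := by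
  unfold ca cb ph
  rw [Real.cos_add]
  ring

/-- blocks with a large sum exist arbitrarily far out -/
lemma exists_block (x : ℝ) (M : ℕ) : ∃ m n : ℕ, M ≤ m ∧ m ≤ n ∧
    1 / 50 ≤ |∑ i ∈ Finset.Ico m n, Real.cos (ph x i) / √(i : ℝ)| := by
  obtain ⟨k, hk⟩ := exists_nat_gt ((1 + x + Real.log (M + 10 ^ 8 + 2)) / (2 * Real.pi))
  rw [div_lt_iff₀ (by positivity)] at hk
  set T := Real.exp (2 * Real.pi * k - 1 - x) with hT
  have hTM : (M : ℝ) + 10 ^ 8 + 2 < T := by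
    have h1 : Real.log (M + 10 ^ 8 + 2) < 2 * Real.pi * k - 1 - x := by linarith
    calc (M : ℝ) + 10 ^ 8 + 2 = Real.exp (Real.log (M + 10 ^ 8 + 2)) :=
          (Real.exp_log (by positivity)).symm
      _ < T := Real.exp_lt_exp.2 h1
  have hT0 : 0 < T := Real.exp_pos _
  set N := ⌊T⌋₊ with hNdef
  have hN1 : (N : ℝ) ≤ T := Nat.floor_le hT0.le
  have hN2 : T - 1 < N := Nat.sub_one_lt_floor _
  have hNM : (M : ℝ) + 10 ^ 8 < N := by linarith
  have hN0 : (0 : ℝ) < N := by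
    have : (0 : ℝ) ≤ M := Nat.cast_nonneg M
    linarith
  have hlogT : Real.log T = 2 * Real.pi * k - 1 - x := Real.log_exp _
  have hk' : |Real.log N + 1 + x - 2 * Real.pi * k| ≤ 1 / N := by
    have e : Real.log N + 1 + x - 2 * Real.pi * k = -Real.log (T / N) := by
      rw [Real.log_div hT0.ne' hN0.ne', hlogT]; ring
    rw [e, abs_neg, abs_of_nonneg (Real.log_nonneg (by rw [le_div_iff₀ hN0]; linarith))]
    calc Real.log (T / N) ≤ T / N - 1 := Real.log_le_sub_one_of_pos (by positivity)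
      _ = (T - N) / N := by field_simp
      _ ≤ 1 / N := by gcongr; linarith
  set R := √(N : ℝ) with hRdef
  have hRN : R ^ 2 = N := Real.sq_sqrt hN0.le
  have hR : 10000 ≤ R := by
    rw [hRdef]
    apply Real.le_sqrt_of_sq_le
    have : (0 : ℝ) ≤ M := Nat.cast_nonneg M
    linarith
  have hcs : ∃ A : ℝ, 0 ≤ A ∧ A ≤ 9 / 5 ∧ 7 / 10 ≤ |Real.cos (ph x N + A ^ 2 / 2)| := by
    by_cases h : 7 / 10 ≤ |Real.cos (ph x N)|
    · exact ⟨0, le_rfl, by norm_num, by simpa using h⟩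
    · rw [not_le] at h
      refine ⟨√Real.pi, Real.sqrt_nonneg _, ?_, ?_⟩
      · rw [Real.sqrt_le_left (by norm_num)]
        have := Real.pi_lt_d2
        norm_num at this ⊢
        linarith
      · rw [Real.sq_sqrt Real.pi_pos.le, Real.cos_add_pi_div_two, abs_neg]
        have hs := Real.sin_sq_add_cos_sq (ph x N)
        have h1 : |Real.cos (ph x N)| ^ 2 < (7 / 10) ^ 2 :=
          pow_lt_pow_left₀ h (abs_nonneg _) (by norm_num)
        rw [sq_abs] at h1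
        by_contra h2
        rw [not_le] at h2
        have h3 : |Real.sin (ph x N)| ^ 2 < (7 / 10) ^ 2 :=
          pow_lt_pow_left₀ h2 (abs_nonneg _) (by norm_num)
        rw [sq_abs] at h3
        norm_num at h1 h3
        linarith
  obtain ⟨A, hA0, hA1, hc⟩ := hcs
  have hb := block_sum x k N hR hRN hk' hA0 hA1 hc
  refine ⟨N + ⌈A * R⌉₊, N + ⌊(A + 1 / 8) * R⌋₊, ?_, ?_, ?_⟩
  · have : M ≤ N := by
      have : (M : ℝ) ≤ N := by
        norm_num at hNM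
        linarith
      exact_mod_cast this
    omega
  · have h1 : (⌈A * R⌉₊ : ℝ) < A * R + 1 := Nat.ceil_lt_add_one (by positivity)
    have h2 : (A + 1 / 8) * R - 1 < (⌊(A + 1 / 8) * R⌋₊ : ℝ) := Nat.sub_one_lt_floor _
    have h3 : ⌈A * R⌉₊ ≤ ⌊(A + 1 / 8) * R⌋₊ := by
      have : (⌈A * R⌉₊ : ℝ) ≤ (⌊(A + 1 / 8) * R⌋₊ : ℝ) := by nlinarith
      exact_mod_cast this
    omega
  · have e : ∑ i ∈ Finset.Ico (N + ⌈A * R⌉₊) (N + ⌊(A + 1 / 8) * R⌋₊),
        Real.cos (ph x i) / √(i : ℝ) =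
        ∑ j ∈ Finset.Ico ⌈A * R⌉₊ ⌊(A + 1 / 8) * R⌋₊,
          Real.cos (ph x ((N + j : ℕ) : ℝ)) / √((N + j : ℕ) : ℝ) := by
      rw [Finset.sum_Ico_add (fun i : ℕ => Real.cos (ph x i) / √(i : ℝ)) _ _ N]
      rw [add_comm N ⌈A * R⌉₊, add_comm N ⌊(A + 1 / 8) * R⌋₊]
    rw [e]
    exact hb

lemma abs_coef_le {n : ℕ} {c : ℝ} (hc : |c| ≤ 1) {ε : ℝ} (hε : 0 < ε) :
    |c / √(n : ℝ)| ^ (2 + ε) ≤ 1 / (n : ℝ) ^ (1 + ε / 2) := by
  rcases Nat.eq_zero_or_pos n with rfl | hn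
  · simp only [Nat.cast_zero, Real.sqrt_zero, div_zero, abs_zero]
    rw [Real.zero_rpow (by positivity), Real.zero_rpow (by positivity)]
    simp
  have hn0 : (0 : ℝ) < n := by exact_mod_cast hn
  have h1 : |c / √(n : ℝ)| ≤ 1 / √(n : ℝ) := by
    rw [abs_div, abs_of_nonneg (Real.sqrt_nonneg _)]
    gcongr
  calc |c / √(n : ℝ)| ^ (2 + ε) ≤ (1 / √(n : ℝ)) ^ (2 + ε) :=
        Real.rpow_le_rpow (abs_nonneg _) h1 (by positivity)
    _ = 1 / (n : ℝ) ^ (1 + ε / 2) := by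
        rw [Real.div_rpow zero_le_one (Real.sqrt_nonneg _), Real.one_rpow, Real.sqrt_eq_rpow,
          ← Real.rpow_mul hn0.le]
        congr 2
        ring

/-- **Orlicz's problem, answered positively.**  There are real coefficients `a n`, `b n` with
`∑ (|a n| ^ (2 + ε) + |b n| ^ (2 + ε)) < ∞` for every `ε > 0` such that the trigonometric series
`∑_{n ≥ 1} (a n cos (n x) + b n sin (n x))` diverges at every real `x`: its partial sums have no
finite limit. -/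
theorem result : ∃ a b : ℕ → ℝ,
    (∀ ε : ℝ, 0 < ε → Summable fun n : ℕ => |a n| ^ (2 + ε) + |b n| ^ (2 + ε)) ∧
    ∀ x : ℝ, ¬ ∃ l : ℝ, Tendsto
      (fun N : ℕ => ∑ n ∈ Finset.Icc 1 N, (a n * Real.cos (n * x) + b n * Real.sin (n * x)))
      atTop (𝓝 l) := by
  refine ⟨ca, cb, fun ε hε => ?_, fun x => ?_⟩
  · have hs : Summable fun n : ℕ => 1 / (n : ℝ) ^ (1 + ε / 2) :=
      Real.summable_one_div_nat_rpow.2 (by linarith)
    refine Summable.add ?_ ?_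
    · refine Summable.of_nonneg_of_le (fun n => by positivity) (fun n => ?_) hs
      exact abs_coef_le (Real.abs_cos_le_one _) hε
    · refine Summable.of_nonneg_of_le (fun n => by positivity) (fun n => ?_) hs
      exact abs_coef_le (by rw [abs_neg]; exact Real.abs_sin_le_one _) hε
  · rintro ⟨l, hl⟩
    rw [Metric.tendsto_atTop] at hl
    obtain ⟨M, hM⟩ := hl (1 / 200) (by norm_num)
    obtain ⟨m, n, hMm, hmn, hsum⟩ := exists_block x (M + 1)
    have h1 := hM (m - 1) (by omega)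
    have h2 := hM (n - 1) (by omega)
    rw [Real.dist_eq] at h1 h2
    have e : ∑ i ∈ Finset.Ico m n, Real.cos (ph x i) / √(i : ℝ) =
        ∑ i ∈ Finset.Icc 1 (n - 1), (ca i * Real.cos (i * x) + cb i * Real.sin (i * x)) -
        ∑ i ∈ Finset.Icc 1 (m - 1), (ca i * Real.cos (i * x) + cb i * Real.sin (i * x)) := by
      have hI : ∀ q : ℕ, 1 ≤ q → Finset.Icc 1 (q - 1) = Finset.Ico 1 q := by
        intro q hq
        ext i
        simp only [Finset.mem_Icc, Finset.mem_Ico]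
        omega
      rw [hI n (by omega), hI m (by omega), ← Finset.sum_Ico_consecutive _ (by omega : 1 ≤ m) hmn,
        add_sub_cancel_left]
      exact Finset.sum_congr rfl fun i _ => (term_eq x i).symm
    rw [e] at hsum
    rw [abs_lt] at h1 h2
    have h3 : |∑ i ∈ Finset.Icc 1 (n - 1), (ca i * Real.cos (i * x) + cb i * Real.sin (i * x)) -
        ∑ i ∈ Finset.Icc 1 (m - 1), (ca i * Real.cos (i * x) + cb i * Real.sin (i * x))| <
        1 / 50 := by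
      rw [abs_lt]
      constructor <;> linarith [h1.1, h1.2, h2.1, h2.2]
    exact absurd hsum (not_le.2 h3)

end Pool.Agent.Results.MP_85199e_an.EverywhereDivergent
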